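import Pool.Agent.Helper21.FX.S
import Pool.Agent.Helper82.TM.FR
import Pool.Agent.Helper17.N9.N9F
import Pool.Agent.Helper17.N9.N9G

/-!
MP_c75db0, Plan W, the invariance items in the fused machine: row P, the packed frame and the source form at the nodes.
-/

set_option autoImplicit false
set_option exponentiation.threshold 2000
noncomputable section
namespace Pool.Agent.Helper21.FX

open Matrix
open Pool.Agent.Helper86.C75 (Z)
open Pool.Agent.Helper86.CX (Cx andB psd1)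
open Pool.Agent.Helper86.CT (Mo KM)
open Pool.Agent.Helper90.KMO (UU UU_pos UUc_ne cz zv zv_p zv_m andB_t)
open Pool.Agent.Helper90.KMT (PT)
open Pool.Agent.Helper90.C75 (Vt avg avg_add avg_smul)
open Pool.Agent.Helper62.TVM (V3m C9)
open Pool.Agent.Helper82.TST (Fr frR frS frK dtC adC nzC smC C9M)
open Pool.Agent.Helper82.FRD (jr ouR)
open Pool.Agent.Helper17.N9 (Kf KfM Tr Tl3 bsU Lc1 frU kE kNd fmJ OC1 OH1 r52 AI mI ef ndw lv3 RF PF
  u20 zoff H19 kU_ok jU_ok kNd_leaf kap tabM ef_apply r52_U mkUt)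
open Pool.Agent.Helper91.TM (AT TP lfT)
open Pool.Agent.Helper91.TMK (TOK TW)
open Pool.Agent.Helper91.TMK.TST (HK)
open Pool.Agent.Helper91.FU
open Pool.Agent.Helper6.MONO (V3)
open Pool.Agent.Helper6.MONO.W2 (Mt hr J1 rfJ)

namespace RP

/-! ### digits -/

theorem sum_lt {B : ℕ} {d : ℕ → ℕ} (hd : ∀ i, d i < B) (i : ℕ) :
    ∑ j ∈ Finset.range i, d j * B ^ j < B ^ i := by
  induction i with
  | zero => simp
  | succ i ih =>
    rw [Finset.sum_range_succ, pow_succ]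
    have h1 : d i + 1 ≤ B := hd i
    have h2 : (d i + 1) * B ^ i ≤ B * B ^ i := Nat.mul_le_mul_right _ h1
    nlinarith

theorem dig {B : ℕ} {d : ℕ → ℕ} (hd : ∀ i, d i < B) (i k : ℕ) :
    (∑ j ∈ Finset.range (i + (k + 1)), d j * B ^ j) / B ^ i % B = d i := by
  have hB : 0 < B := lt_of_le_of_lt (Nat.zero_le _) (hd 0)
  have e : ∑ j ∈ Finset.range (i + (k + 1)), d j * B ^ j =
      (∑ j ∈ Finset.range i, d j * B ^ j) +
        B ^ i * (d i + B * ∑ j ∈ Finset.range k, d (i + 1 + j) * B ^ j) := by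
    rw [Finset.sum_range_add, Finset.sum_range_succ', mul_add, Finset.mul_sum, Finset.mul_sum]
    simp only [add_zero]
    have e1 : ∑ j ∈ Finset.range k, d (i + (j + 1)) * B ^ (i + (j + 1)) =
        ∑ j ∈ Finset.range k, B ^ i * (B * (d (i + 1 + j) * B ^ j)) := by
      refine Finset.sum_congr rfl fun j _ => ?_
      rw [show i + (j + 1) = i + 1 + j by ring, pow_add, pow_succ]
      ring
    rw [e1]
    ring
  rw [e, Nat.add_mul_div_left _ _ (Nat.pow_pos hB), Nat.div_eq_of_lt (sum_lt hd i), zero_add,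
    Nat.add_mul_mod_self_left, Nat.mod_eq_of_lt (hd i)]

/-- entry number `K` -/
def at9 (c : C9) (K : ℕ) : Cx := match K with
  | 0 => c.a | 1 => c.b | 2 => c.c | 3 => c.d | 4 => c.e | 5 => c.f | 6 => c.g | 7 => c.h | _ => c.i

/-- the digits -/
def dd (c : C9) (n : ℕ) : ℕ :=
  if n % 2 = 0 then zoff H19 (at9 c (n / 2)).re else zoff H19 (at9 c (n / 2)).im

theorem zab_abs (x : Z) : ((zab x : ℕ) : ℤ) = |zv x| := by
  cases x with
  | p n => show ((n : ℕ) : ℤ) = |(n : ℤ)|; rw [abs_of_nonneg (Int.natCast_nonneg n)]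
  | m n => show ((n : ℕ) : ℤ) = |-(n : ℤ)|; rw [abs_neg, abs_of_nonneg (Int.natCast_nonneg n)]

theorem zle {x : Z} (h : Nat.ble (zab x) (nat_lit 32767) = true) : |zv x| ≤ 32767 := by
  have h1 : zab x ≤ 32767 := Nat.le_of_ble_eq_true h
  rw [← zab_abs]
  exact_mod_cast h1

theorem zoH {x : Z} (h : |zv x| ≤ 32767) : ((zoff H19 x : ℕ) : ℤ) = 2 ^ 19 + zv x := by
  have h1 := abs_le.1 h
  have h2 : (0 : ℤ) ≤ ((H19 : ℕ) : ℤ) + zv x := by
    show (0 : ℤ) ≤ ((524288 : ℕ) : ℤ) + zv x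
    have := h1.1
    norm_num
    linarith
  rw [Pool.Agent.Helper17.N9.zoff_cast h2]
  show ((524288 : ℕ) : ℤ) + zv x = _
  norm_num

theorem s15_ok {x : Cx} (h : s15 x = true) : |zv x.re| ≤ 32767 ∧ |zv x.im| ≤ 32767 :=
  ⟨zle (andB_t h).1, zle (andB_t h).2⟩

theorem sF_ok {c : C9} (h : sF c = true) (K : ℕ) :
    |zv (at9 c K).re| ≤ 32767 ∧ |zv (at9 c K).im| ≤ 32767 := by
  obtain ⟨h0, h⟩ := andB_t h
  obtain ⟨h1, h⟩ := andB_t h
  obtain ⟨h2, h⟩ := andB_t h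
  obtain ⟨h3, h⟩ := andB_t h
  obtain ⟨h4, h⟩ := andB_t h
  obtain ⟨h5, h⟩ := andB_t h
  obtain ⟨h6, h⟩ := andB_t h
  obtain ⟨h7, h8⟩ := andB_t h
  match K with
  | 0 => exact s15_ok h0
  | 1 => exact s15_ok h1
  | 2 => exact s15_ok h2
  | 3 => exact s15_ok h3
  | 4 => exact s15_ok h4
  | 5 => exact s15_ok h5
  | 6 => exact s15_ok h6
  | 7 => exact s15_ok h7
  | (n + 8) => exact s15_ok h8

theorem dd_lt {c : C9} (h : sF c = true) (n : ℕ) : dd c n < 2 ^ 20 := by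
  have h1 := sF_ok h (n / 2)
  have key : ∀ x : Z, |zv x| ≤ 32767 → zoff H19 x < 2 ^ 20 := by
    intro x hx
    have e := zoH hx
    have h2 := (abs_le.1 hx).2
    have h3 : ((zoff H19 x : ℕ) : ℤ) < 2 ^ 20 := by
      rw [e]; norm_num; linarith
    exact_mod_cast h3
  unfold dd
  split
  · exact key _ h1.1
  · exact key _ h1.2

theorem pkF_sum (c : C9) : pkF c = ∑ j ∈ Finset.range 18, dd c j * (2 ^ 20) ^ j := by
  have hs : ∀ a b : ℕ, Nat.shiftLeft a b = a * 2 ^ b := fun a b => Nat.shiftLeft_eq a b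
  have hp : ∀ (x : Cx) (k : ℕ), pf x k = (zoff H19 x.re + zoff H19 x.im * 2 ^ 20) * 2 ^ k := by
    intro x k
    show Nat.shiftLeft (zoff H19 x.re + Nat.shiftLeft (zoff H19 x.im) 20) k = _
    rw [hs, hs]
  have e : pkF c = pf c.a 0 + (pf c.b 40 + (pf c.c 80 + (pf c.d 120 + (pf c.e 160 + (pf c.f 200 +
      (pf c.g 240 + (pf c.h 280 + pf c.i 320))))))) := rfl
  rw [e]
  simp only [hp, Finset.sum_range_succ, Finset.sum_range_zero]
  have d0 : dd c 0 = zoff H19 c.a.re := rfl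
  have d1 : dd c 1 = zoff H19 c.a.im := rfl
  have d2 : dd c 2 = zoff H19 c.b.re := rfl
  have d3 : dd c 3 = zoff H19 c.b.im := rfl
  have d4 : dd c 4 = zoff H19 c.c.re := rfl
  have d5 : dd c 5 = zoff H19 c.c.im := rfl
  have d6 : dd c 6 = zoff H19 c.d.re := rfl
  have d7 : dd c 7 = zoff H19 c.d.im := rfl
  have d8 : dd c 8 = zoff H19 c.e.re := rfl
  have d9 : dd c 9 = zoff H19 c.e.im := rfl
  have d10 : dd c 10 = zoff H19 c.f.re := rfl
  have d11 : dd c 11 = zoff H19 c.f.im := rfl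
  have d12 : dd c 12 = zoff H19 c.g.re := rfl
  have d13 : dd c 13 = zoff H19 c.g.im := rfl
  have d14 : dd c 14 = zoff H19 c.h.re := rfl
  have d15 : dd c 15 = zoff H19 c.h.im := rfl
  have d16 : dd c 16 = zoff H19 c.i.re := rfl
  have d17 : dd c 17 = zoff H19 c.i.im := rfl
  rw [d0, d1, d2, d3, d4, d5, d6, d7, d8, d9, d10, d11, d12, d13, d14, d15, d16, d17]
  generalize zoff H19 c.a.re = x0
  generalize zoff H19 c.a.im = x1
  generalize zoff H19 c.b.re = x2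
  generalize zoff H19 c.b.im = x3
  generalize zoff H19 c.c.re = x4
  generalize zoff H19 c.c.im = x5
  generalize zoff H19 c.d.re = x6
  generalize zoff H19 c.d.im = x7
  generalize zoff H19 c.e.re = x8
  generalize zoff H19 c.e.im = x9
  generalize zoff H19 c.f.re = x10
  generalize zoff H19 c.f.im = x11
  generalize zoff H19 c.g.re = x12
  generalize zoff H19 c.g.im = x13
  generalize zoff H19 c.h.re = x14
  generalize zoff H19 c.h.im = x15
  generalize zoff H19 c.i.re = x16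
  generalize zoff H19 c.i.im = x17
  ring

theorem u20_pk {c : C9} (h : sF c = true) {n : ℕ} (hn : n < 18) : u20 (pkF c) (20 * n) = dd c n := by
  show Nat.shiftRight (pkF c) (20 * n) % 1048576 = _
  have e1 : Nat.shiftRight (pkF c) (20 * n) = pkF c / 2 ^ (20 * n) := Nat.shiftRight_eq_div_pow _ _
  obtain ⟨k, hk⟩ : ∃ k, 18 = n + (k + 1) := ⟨17 - n, by omega⟩
  rw [e1, pow_mul, pkF_sum, hk]
  exact dig (dd_lt h) n k

theorem AI_re {c : C9} (h : sF c = true) {i j : ℕ} (hi : i < 3) (hj : j < 3) :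
    AI (pkF c) i j 0 = zv (at9 c (3 * i + j)).re := by
  show (u20 (pkF c) (40 * (3 * i + j)) : ℤ) - 2 ^ 19 = _
  rw [show 40 * (3 * i + j) = 20 * (2 * (3 * i + j)) by ring, u20_pk h (by omega)]
  have e : dd c (2 * (3 * i + j)) = zoff H19 (at9 c (3 * i + j)).re := by
    unfold dd
    rw [if_pos (by omega), show 2 * (3 * i + j) / 2 = 3 * i + j by omega]
  rw [e, zoH (sF_ok h _).1]
  ring
theorem AI_im {c : C9} (h : sF c = true) {i j : ℕ} (hi : i < 3) (hj : j < 3) :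
    AI (pkF c) i j 1 = zv (at9 c (3 * i + j)).im := by
  show (u20 (pkF c) (40 * (3 * i + j) + 20) : ℤ) - 2 ^ 19 = _
  rw [show 40 * (3 * i + j) + 20 = 20 * (2 * (3 * i + j) + 1) by ring, u20_pk h (by omega)]
  have e : dd c (2 * (3 * i + j) + 1) = zoff H19 (at9 c (3 * i + j)).im := by
    unfold dd
    rw [if_neg (by omega), show (2 * (3 * i + j) + 1) / 2 = 3 * i + j by omega]
  rw [e, zoH (sF_ok h _).2]
  ring

theorem ef_at {c : C9} (h : sF c = true) {i j : ℕ} (hi : i < 3) (hj : j < 3) :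
    ef i j (AI (pkF c)) = cz (at9 c (3 * i + j)) := by
  rw [ef_apply, AI_re h hi hj, AI_im h hi hj]
  rfl

theorem C9M_at (c : C9) (i j : Fin 3) : C9M c i j = cz (at9 c (3 * (i : ℕ) + (j : ℕ))) := by
  match i, j with
  | 0, 0 => rfl
  | 0, 1 => rfl
  | 0, 2 => rfl
  | 1, 0 => rfl
  | 1, 1 => rfl
  | 1, 2 => rfl
  | 2, 0 => rfl
  | 2, 1 => rfl
  | 2, 2 => rfl

theorem cz_le {c : C9} (h : sF c = true) (K : ℕ) : ‖cz (at9 c K)‖ ^ 2 ≤ 2 ^ 31 := by
  obtain ⟨h1, h2⟩ := sF_ok h K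
  have e : ‖cz (at9 c K)‖ ^ 2 = (zv (at9 c K).re : ℝ) ^ 2 + (zv (at9 c K).im : ℝ) ^ 2 := by
    rw [← Complex.normSq_eq_norm_sq, Complex.normSq_apply]
    show (zv (at9 c K).re : ℝ) * (zv (at9 c K).re : ℝ) + (zv (at9 c K).im : ℝ) * (zv (at9 c K).im : ℝ) = _
    ring
  have g1 : |(zv (at9 c K).re : ℝ)| ≤ 32767 := by exact_mod_cast h1
  have g2 : |(zv (at9 c K).im : ℝ)| ≤ 32767 := by exact_mod_cast h2
  rw [e, ← sq_abs (zv (at9 c K).re : ℝ), ← sq_abs (zv (at9 c K).im : ℝ)]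
  nlinarith [abs_nonneg (zv (at9 c K).re : ℝ), abs_nonneg (zv (at9 c K).im : ℝ)]

theorem C9M_le {c : C9} (h : sF c = true) (k i j : Fin 3) :
    ‖star (C9M c k i) * C9M c k j‖ ≤ 2 ^ 31 := by
  rw [norm_mul, norm_star]
  have h1 := cz_le h (3 * (k : ℕ) + (i : ℕ))
  have h2 := cz_le h (3 * (k : ℕ) + (j : ℕ))
  rw [← C9M_at] at h1 h2
  nlinarith [sq_nonneg (‖C9M c k i‖ - ‖C9M c k j‖)]

theorem JF (A : Mt) (i j : Fin 3) : (Aᴴ * J1 * A) i j =
    star (A 0 i) * A 0 j + star (A 1 i) * A 1 j - star (A 2 i) * A 2 j := by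
  simp only [Matrix.mul_apply, Fin.sum_univ_three, Matrix.conjTranspose_apply]
  have a : ∀ p q : Fin 3, J1 p q = (!![1, 0, 0; 0, 1, 0; 0, 0, -1] : Mt) p q := fun _ _ => rfl
  simp only [a]
  simp
  ring

theorem mI_at (Y : Pool.Agent.Helper17.N9.VF) (i j : Fin 3) : mI Y i j = ef (i : ℕ) (j : ℕ) Y := rfl

theorem abs_re_im {Y : Pool.Agent.Helper17.N9.VF} {i j : ℕ} {b : ℤ} (h : ‖ef i j Y‖ ≤ (b : ℝ)) (e : Fin 2) :
    |Y i j e| ≤ b := by
  have h0 : |(Y i j 0 : ℝ)| ≤ b := le_trans (Complex.abs_re_le_norm (ef i j Y)) h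
  have h1 : |(Y i j 1 : ℝ)| ≤ b := le_trans (Complex.abs_im_le_norm (ef i j Y)) h
  match e with
  | 0 => exact_mod_cast h0
  | 1 => exact_mod_cast h1

end RP

open RP

theorem pkF_ok {c : C9} (h : sF c = true) : mI (AI (pkF c)) = C9M c ∧
    ∀ i < 3, ∀ j < 3, ∀ e, |AI (pkF c) i j e| ≤ 2 ^ 15 := by
  refine ⟨?_, ?_⟩
  · ext i j
    rw [mI_at, ef_at h i.2 j.2, C9M_at]
  · intro i hi j hj e
    have h1 := sF_ok h (3 * i + j)
    match e with
    | 0 => rw [AI_re h hi hj]; exact le_trans h1.1 (by norm_num)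
    | 1 => rw [AI_im h hi hj]; exact le_trans h1.2 (by norm_num)
/-- the form `J` in the frame -/
theorem soJ_ok {c : C9} (h : sF c = true) : ∃ Y : Pool.Agent.Helper17.N9.VF,
    RF 1 (fmJ Lc1 (soB c)) Y ∧ mI Y = (C9M c)ᴴ * J1 * C9M c ∧
      ∀ i < 3, ∀ j < 3, ∀ e, |Y i j e| ≤ 2 ^ 33 := by
  obtain ⟨Y, h1, h2, -⟩ := jU_ok (pkF c)
  rw [(pkF_ok h).1] at h2
  refine ⟨Y, h1, h2, ?_⟩
  intro i hi j hj e
  apply abs_re_im
  have e1 : ef i j Y = ((C9M c)ᴴ * J1 * C9M c) ⟨i, hi⟩ ⟨j, hj⟩ := by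
    rw [← h2]; rfl
  rw [e1, JF]
  have a0 := C9M_le h 0 ⟨i, hi⟩ ⟨j, hj⟩
  have a1 := C9M_le h 1 ⟨i, hi⟩ ⟨j, hj⟩
  have a2 := C9M_le h 2 ⟨i, hi⟩ ⟨j, hj⟩
  refine le_trans (norm_sub_le _ _) ?_
  refine le_trans (add_le_add (norm_add_le _ _) le_rfl) ?_
  push_cast
  linarith
/-- the source form at the nodes: digits `Y`, unit `2 ^ (-23)` -/
theorem soK_ok {c : C9} (h : sF c = true) {K : Kf} (hr : r52 Lc1 (soK c K) = true) :
    ∃ Y : Vt 3 → Pool.Agent.Helper17.N9.VF,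
      (∀ u, ((lv3 (soK c K) u : ℕ) : ℤ) = (OC1 : ℤ) + PF 1 (Y u)) ∧
      (∀ u, ∀ i < 3, ∀ j < 3, ∀ e, |Y u i j e| ≤ 2 ^ 52) ∧
      ∀ t : ℕ → ℝ, ∀ i j : Fin 3, 2 ^ 23 * ((C9M c)ᴴ * KfM K t * C9M c) i j =
        avg (ndw 3 t) (fun u => ef (i : ℕ) (j : ℕ) (Y u)) := by
  obtain ⟨T, hT1, hT2⟩ := kNd_leaf (kE Lc1 (soB c)) K
  choose Y hY1 hY2 hY3 using fun u => kU_ok (pkF c) (T u)
  have h1 : ∀ u, ((lv3 (soK c K) u : ℕ) : ℤ) = (OC1 : ℤ) + PF 1 (Y u) := by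
    intro u
    have := hT1 u
    show ((lv3 (kNd (kE Lc1 (soB c)) K) u : ℕ) : ℤ) = _
    rw [this]
    exact hY1 u
  refine ⟨Y, h1, fun u => r52_U hr h1 hY3 u, ?_⟩
  intro t i j
  have h2 : ∀ u, ef (i : ℕ) (j : ℕ) (Y u) = 2 ^ 23 * ((C9M c)ᴴ * tabM (T u) * C9M c) i j := by
    intro u
    rw [← mI_at, hY2 u, (pkF_ok h).1]
    unfold kap
    rw [Matrix.mul_smul, Matrix.smul_mul, Matrix.smul_apply, smul_eq_mul]
  simp only [h2]
  rw [avg_smul]
  congr 1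
  simp only [Matrix.mul_apply, Fin.sum_univ_three, hT2]
  simp only [add_mul, avg_add]
  have m1 : ∀ (a b : ℂ) (F : Vt 3 → ℂ), avg (ndw 3 t) (fun u => a * F u * b) =
      a * avg (ndw 3 t) F * b := by
    intro a b F
    have e : (fun u => a * F u * b) = fun u => (a * b) * F u := by
      funext u
      ring
    rw [e, avg_smul]
    ring
  simp only [m1]

end Pool.Agent.Helper21.FX
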